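import Pool.Agent.U201.NS.Defs

/-!
# The nef cone of `X` for a general projective variety `F`
-/

set_option autoImplicit false

namespace Pool.Agent.U201.NS

open Finset Filter Topology
open Pool.Agent.W594.SYZ2 Pool.Agent.W594.SYZ2.TQ Pool.Agent.TH735.AQ
open Pool.Agent.X324.CF
open Pool.Agent.U201.EC
open Pool.Agent.Y167 (cone cone_add cone_smul cone_le cone_mono cone_sum mem_cone_self
  zero_mem_cone cone_image cone_ind cone_of_scaled mem_cone_of_sum Rel Pol Cp CData)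

section F

variable {ρ : ℕ} {R : Type*} [CommRing R] [Algebra ℂ R]
  {𝒜 : Cl ρ → Submodule ℂ R} {u : Cl ρ}

theorem IsProj.base (F : IsProj 𝒜 u) : Base 𝒜 (w0 ρ) where
  gens := fun H hH => by
    rw [eq_top_iff]
    intro β _
    obtain ⟨m, h1, h2⟩ := F.sections β
    have h3 := H.sub_mem (hH _ h1) (hH _ h2)
    rwa [add_sub_cancel_right] at h3
  pointed := fun c _ => funext fun i => i.elim0

theorem semi_u (F : IsProj 𝒜 u) : rv u ∈ coneHull (semiR 𝒜 u) := by
  obtain ⟨m, hm⟩ := F.ample u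
  have h1 : ((m : ℝ) + 1) • rv u ∈ semiR 𝒜 u := ⟨u + m • u, hm, by
    rw [rv_add, rv_nsmul]
    module⟩
  exact hull_scaled (by positivity) h1

theorem near (F : IsProj 𝒜 u) : ∃ c : Fin ρ → ℝ, (∀ k, 0 ≤ c k) ∧
    ∀ (b : Fin ρ → ℝ) (t : ℝ), ∑ k, |b k| * c k ≤ t → t • rv u - b ∈ coneHull (semiR 𝒜 u) := by
  classical
  choose m hm using F.ample
  have hu := NS.semi_u F
  refine ⟨fun k => (m (Pi.single k 1) : ℝ) + m (-Pi.single k 1), fun k => by positivity,
    fun b t ht => ?_⟩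
  have h1 : ∀ k, (|b k| * ((m (Pi.single k 1) : ℝ) + m (-Pi.single k 1))) • rv u
      - b k • rv (Pi.single k 1) ∈ coneHull (semiR 𝒜 u) := by
    intro k
    rcases le_total 0 (b k) with h | h
    · have h2 := hull_add (hull_smul h (hull_mem (P := semiR 𝒜 u) ⟨_, hm (-Pi.single k 1), rfl⟩))
        (hull_smul (t := b k * m (Pi.single k 1)) (by positivity) hu)
      have h3 : b k • rv (-Pi.single k 1 + m (-Pi.single k 1) • u)
          + (b k * m (Pi.single k 1)) • rv u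
          = (|b k| * ((m (Pi.single k 1) : ℝ) + m (-Pi.single k 1))) • rv u
            - b k • rv (Pi.single k 1) := by
        rw [abs_of_nonneg h, rv_add, rv_neg, rv_nsmul]
        module
      rwa [h3] at h2
    · have h2 := hull_add (hull_smul (neg_nonneg.2 h)
        (hull_mem (P := semiR 𝒜 u) ⟨_, hm (Pi.single k 1), rfl⟩))
        (hull_smul (t := -b k * m (-Pi.single k 1)) (mul_nonneg (neg_nonneg.2 h)
          (Nat.cast_nonneg _)) hu)
      have h3 : (-b k) • rv (Pi.single k 1 + m (Pi.single k 1) • u)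
          + (-b k * m (-Pi.single k 1)) • rv u
          = (|b k| * ((m (Pi.single k 1) : ℝ) + m (-Pi.single k 1))) • rv u
            - b k • rv (Pi.single k 1) := by
        rw [abs_of_nonpos h, rv_add, rv_nsmul]
        module
      rwa [h3] at h2
  have h2 : ∀ s : Finset (Fin ρ), (∑ k ∈ s, |b k| * ((m (Pi.single k 1) : ℝ)
      + m (-Pi.single k 1))) • rv u - ∑ k ∈ s, b k • rv (Pi.single k 1)
        ∈ coneHull (semiR 𝒜 u) := by
    intro s
    induction s using Finset.induction_on with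
    | empty => simpa using hull_zero
    | insert k s hk ih =>
      rw [Finset.sum_insert hk, Finset.sum_insert hk, add_smul, add_sub_add_comm]
      exact hull_add (h1 k) ih
  have h4 := h2 Finset.univ
  rw [rv_basis] at h4
  have h5 := hull_add h4 (hull_smul (sub_nonneg.2 ht) hu)
  have h6 : (∑ k, |b k| * ((m (Pi.single k 1) : ℝ) + m (-Pi.single k 1))) • rv u - b
      + (t - ∑ k, |b k| * ((m (Pi.single k 1) : ℝ) + m (-Pi.single k 1))) • rv u
      = t • rv u - b := by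
    rw [sub_smul]
    abel
  rwa [h6] at h5

/-- Interior points of the nef cone are combinations of semiample classes. -/
theorem inn_hull (F : IsProj 𝒜 u) {x : Fin ρ → ℝ} (hx : Inn (NefF 𝒜 u) (rv u) x) :
    x ∈ coneHull (semiR 𝒜 u) := by
  obtain ⟨t, ht, h1⟩ := hx
  obtain ⟨c, hc, hnear⟩ := NS.near F
  have hcont : Continuous fun z : Fin ρ → ℝ => ∑ k, |(z - (x - t • rv u)) k| * c k := by
    refine continuous_finsetSum _ fun k _ => ?_
    exact (continuous_abs.comp ((continuous_apply k).comp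
      (continuous_id.sub continuous_const))).mul continuous_const
  have hopen : IsOpen {z : Fin ρ → ℝ | ∑ k, |(z - (x - t • rv u)) k| * c k < t} :=
    isOpen_lt hcont continuous_const
  obtain ⟨z, hz1, hz2⟩ := mem_closure_iff.1 h1 _ hopen (by
    change ∑ k, |((x - t • rv u) - (x - t • rv u)) k| * c k < t
    simpa using ht)
  have h2 := hull_add hz2 (hnear (z - (x - t • rv u)) t hz1.le)
  have h3 : z + (t • rv u - (z - (x - t • rv u))) = x := by abel
  rwa [h3] at h2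

end F

variable {V E R : Type*} [NormedAddCommGroup V] [NormedSpace ℂ V]
  [NormedAddCommGroup E] [NormedSpace ℂ E] [CommRing R] [Algebra ℂ R] {ρ : ℕ}
  {𝒜 : Cl ρ → Submodule ℂ R} {Γ : Grp V R} {j : E →ₗ[ℂ] V} {u : Cl ρ} {H₀ : V → V → ℂ}

variable [GradedAlgebra 𝒜]

/-- The semiample classes of `F` which are invariant give semiample classes of `X`. -/
theorem deg_semi (F : IsProj 𝒜 u) (hQ : IsQuotient 𝒜 u Γ) {β : Cl ρ}
    (hβ : X324.CF.Inv 𝒜 Γ β) (h : SemiampleF 𝒜 u β) : ∃ M : ℕ, 0 < M ∧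
      ∃ a ∈ semiample 𝒜 Γ j u, val a = (0, (M : ℝ) • rv β) := by
  classical
  have := hQ.fin_gal
  have : Fintype (gal Γ) := Fintype.ofFinite _
  obtain ⟨m, hm, h1⟩ := h
  obtain ⟨a, ha1, ha2⟩ := exists_degclass (j := j) F.base hQ hβ m
  refine ⟨Nat.card (gal Γ) * m, Nat.mul_pos Nat.card_pos hm, a,
    ⟨_, ha1, 1, one_pos, fun v p hp => ?_⟩, ha2⟩
  obtain ⟨r, hr, hr0⟩ := exists_nonvanish (K := gal Γ) (𝒜 := 𝒜) (β := m • β) (p := p) fun φ =>
    h1 _ (semistable_comp hQ hp φ.2)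
  exact ⟨_, Sheaf.pow_one_section (ofDeg_section hr), hr0⟩

theorem i2_semi (F : IsProj 𝒜 u) (hQ : IsQuotient 𝒜 u Γ) {b : Bs 𝒜 Γ}
    (hb : Inn (NefF 𝒜 u) (rv u) b.1) :
    (i2 F.base hQ b : N1 𝒜 Γ j) ∈ coneHull (semiample 𝒜 Γ j u) := by
  classical
  have := hQ.fin_gal
  have : Fintype (gal Γ) := Fintype.ofFinite _
  refine i2_hull' F.base hQ (Q := fun β => SemiampleF 𝒜 u β)
    (fun β hβ h => NS.deg_semi F hQ hβ h) ?_
  exact avg_hull F.base hQ (fun β hβ => SemiampleF.sum _ _ fun φ _ =>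
    semiampleF_act (isAut_sg hQ φ) hβ) b.2 (NS.inn_hull F hb)

variable [IsDomain R] [FiniteDimensional ℂ V] [FiniteDimensional ℂ E]

omit [FiniteDimensional ℂ E] in
theorem semi_sub (F : IsProj 𝒜 u) (hQ : IsQuotient 𝒜 u Γ) :
    semiample 𝒜 Γ j u ⊆ KN 𝒜 Γ j u := by
  rintro a ⟨𝓛, hc, m, hm, h1⟩
  have hmr : (0 : ℝ) < m := by exact_mod_cast hm
  have h3 : (val a).2 = rv 𝓛.deg := funext hc.2
  refine ⟨fun e => ?_, ?_⟩
  · obtain ⟨p, hp⟩ := F.point
    obtain ⟨f, hf, hf0⟩ := h1 0 p hp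
    obtain ⟨⟨H, hH, h2⟩, -⟩ := hc
    have h4 := Sheaf.nef_of_section hQ (Sheaf.chern_pow hH m) hf.sec ⟨0, fun h => hf0 (by
      rw [h, map_zero])⟩ (j e)
    have e2 : (m : ℂ) = ((m : ℝ) : ℂ) := by push_cast; rfl
    rw [e2, Complex.re_ofReal_mul] at h4
    rw [h2]
    exact nonneg_of_mul_nonneg_right h4 hmr
  · rw [h3]
    refine subset_closure (hull_mem ⟨_, ⟨m, hm, fun p hp => ?_⟩, rfl⟩)
    obtain ⟨f, hf, hf0⟩ := h1 0 p hp
    exact ⟨f 0, hf.mem 0, hf0⟩

/-- Interior classes are combinations of semiample classes. -/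
theorem inn_semi (F : IsProj 𝒜 u) (hQ : IsQuotient 𝒜 u Γ) (Rl : Rel (base Γ) j H₀)
    {a : N1 𝒜 Γ j} {t : ℝ} (ht : 0 < t) (h : ∀ e, t * (H₀ (j e) (j e)).re ≤ ((val a).1 e e).re)
    (hi : Inn (NefF 𝒜 u) (rv u) (val a).2) : a ∈ coneHull (semiample 𝒜 Γ j u) := by
  rw [← split F.base hQ a]
  exact hull_add (i1_hull (fun _ hs _ ha => bpf_semiample hs ha) (interior_form Rl ht h))
    (NS.i2_semi F hQ hi)

theorem closure_eqN (F : IsProj 𝒜 u) (hQ : IsQuotient 𝒜 u Γ) (Rl : Rel (base Γ) j H₀) :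
    nefCone 𝒜 Γ j u = KN 𝒜 Γ j u := by
  apply Set.Subset.antisymm
  · exact closure_minimal (fun _ ha => hull_ind (p := fun a => a ∈ KN 𝒜 Γ j u) KN_zero
      (fun _ _ h1 h2 => KN_add h1 h2) (fun _ _ ht h => KN_smul ht h)
      (fun a ha => NS.semi_sub F hQ ha) ha) KN_closed
  · intro a ha
    obtain ⟨y, hy, hy'⟩ := Pool.Agent.Y167.exists_ample Rl
    let y₀ : N1 𝒜 Γ j := i1 y + i2 F.base hQ ⟨rv u, Submodule.subset_span ⟨u, hQ.inv, rfl⟩⟩
    have key : ∀ ε : ℝ, 0 < ε → a + ε • y₀ ∈ coneHull (semiample 𝒜 Γ j u) := by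
      intro ε hε
      refine NS.inn_semi F hQ Rl hε (fun e => ?_) ⟨ε, hε, ?_⟩
      · have h1 : (val (a + ε • y₀)).1 e e = (val a).1 e e + ε • H₀ (j e) (j e) := by
          change (val a).1 e e + ε • (y.1 e e + 0) = _
          rw [add_zero, hy']
        rw [h1, Complex.add_re, Complex.smul_re, smul_eq_mul]
        linarith [ha.1 e]
      · have h1 : (val (a + ε • y₀)).2 = (val a).2 + ε • rv u := by
          change (val a).2 + ε • ((0 : Fin ρ → ℝ) + rv u) = _
          rw [zero_add]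
        rw [h1, add_sub_cancel_right]
        exact ha.2
    exact mem_closure_of_tendsto (tends a y₀) (Eventually.of_forall fun k => key _ (by positivity))


end Pool.Agent.U201.NS
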