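import Pool.Agent.U201.EC.Cones

/-!
# Nef and semiample sheaves on quotients `(A × F) / G`

`F` is a projective variety with Cox ring `R = ⨁ 𝒜 β`, as in `Pool.Agent.X324.CF.Defs` and
`Pool.Agent.U201.EC.Defs`, and `X = (A × F) / G = (V × F) / Γ`, with `A` an abelian variety.
-/

set_option autoImplicit false

namespace Pool.Agent.U201.NS

open Pool.Agent.X324.CF Pool.Agent.U201.EC

section F

variable {ρ : ℕ} {R : Type*} [CommRing R] [Algebra ℂ R] (𝒜 : Cl ρ → Submodule ℂ R)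

/-- `F` is a normal projective variety, `ℚ`-factorial with free class group `Cl(F) = ℤ^ρ` and with
ample class `u`. The conditions say: `F` is not empty; the only functions on `F` are the constants;
every class becomes effective, and semiample, when a multiple of `u` is added. -/
structure IsProj (u : Cl ρ) : Prop where
  point : ∃ p : R →ₐ[ℂ] ℂ, Semistable 𝒜 u p
  const : ∀ r ∈ 𝒜 0, ∃ c : ℂ, r = algebraMap ℂ R c
  sections : ∀ β : Cl ρ, ∃ m : ℕ, (∃ r ∈ 𝒜 (β + m • u), r ≠ 0) ∧ ∃ r ∈ 𝒜 (m • u), r ≠ 0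
  ample : ∀ β : Cl ρ, ∃ m : ℕ, SemiampleF 𝒜 u (β + m • u)

/-- The sheaf `O_F(β)` is generated by its global sections: at each point of `F` it has a section which
does not vanish there. -/
def GenF (u β : Cl ρ) : Prop :=
  ∀ p : R →ₐ[ℂ] ℂ, Semistable 𝒜 u p → ∃ r ∈ 𝒜 β, p r ≠ 0

end F

section X

variable {V E R : Type*} [NormedAddCommGroup V] [NormedSpace ℂ V]
  [NormedAddCommGroup E] [NormedSpace ℂ E] [CommRing R] [Algebra ℂ R] {ρ : ℕ}
  {𝒜 : Cl ρ → Submodule ℂ R} {Γ : Grp V R}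

/-- The sheaf is nef relative to `Z`: its class is in the nef cone of `X/Z`. (For `E = V` and `j` the
identity this is the absolute case.) -/
def IsNef (j : E →ₗ[ℂ] V) (u : Cl ρ) (𝓛 : Sheaf 𝒜 Γ) : Prop :=
  ∃ x ∈ nefCone 𝒜 Γ j u, IsClass j 𝓛 (val x)

/-- The sheaf is numerically semiample relative to `Z`: some multiple, `m > 0`, of its class in
`N^1(X/Z)` is the class of a semiample sheaf on `X`. -/
def IsNumSemiample (j : E →ₗ[ℂ] V) (u : Cl ρ) (𝓛 : Sheaf 𝒜 Γ) : Prop :=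
  ∃ m : ℕ, 0 < m ∧ ∃ x y : N1 𝒜 Γ j, IsClass j 𝓛 (val x) ∧ y = (m : ℝ) • x ∧
    y ∈ semiample 𝒜 Γ j u

/-- The reflexive power `𝓛^{[k]}` is generated by its global sections: at each point of `X` it has a
section which does not vanish there. -/
def IsGen (u : Cl ρ) (𝓛 : Sheaf 𝒜 Γ) (k : ℕ) : Prop :=
  ∀ (v : V) (p : R →ₐ[ℂ] ℂ), Semistable 𝒜 u p → ∃ f, 𝓛.IsPowSection k f ∧ p (f v) ≠ 0

/-- The number of the linear parts of the affine transformations in `Γ`. -/
noncomputable def numLin (Γ : Grp V R) : ℕ := Nat.card {g : V ≃ₗ[ℂ] V // ∃ γ ∈ Γ, γ.1.linear = g}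

/-- The number of the automorphisms of `R` in `Γ`. -/
noncomputable def numAut (Γ : Grp V R) : ℕ := Nat.card {φ : R ≃ₐ[ℂ] R // ∃ γ ∈ Γ, γ.2 = φ}

end X

end Pool.Agent.U201.NS
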