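import Pool.Agent.U201.NS.Tors
import Pool.Agent.Y167.Inv

/-!
# Nef sheaves and semiample sheaves
-/

set_option autoImplicit false

namespace Pool.Agent.U201.NS

open Finset Filter Topology
open Pool.Agent.W594.SYZ2 Pool.Agent.W594.SYZ2.TQ Pool.Agent.TH735.AQ
open Pool.Agent.X324.CF
open Pool.Agent.U201.EC
open Pool.Agent.Y167 (Rel)

variable {V R : Type*} [NormedAddCommGroup V] [NormedSpace ℂ V] [FiniteDimensional ℂ V]
  [CommRing R] [Algebra ℂ R] {ρ : ℕ}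
  {𝒜 : Cl ρ → Submodule ℂ R} {Γ : Grp V R} {u : Cl ρ} {H₀ : V → V → ℂ}

/-- If `H^1(X, O_X) ≠ 0`, some sheaf with class zero is not semiample. -/
theorem exists_not_semi (hQ : IsQuotient 𝒜 u Γ) (hp : ∃ p : R →ₐ[ℂ] ℂ, Semistable 𝒜 u p)
    (h01 : ¬ HOneZero (base Γ)) :
    ∃ 𝓛 : Sheaf 𝒜 Γ, IsNef (LinearMap.id : V →ₗ[ℂ] V) u 𝓛 ∧ ¬ 𝓛.IsSemiample u := by
  unfold HOneZero at h01
  push Not at h01
  obtain ⟨ℓ, hℓ, hne⟩ := h01
  let lam : V →ₗ[ℝ] ℝ :=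
    { toFun := fun v => (ℓ v).re
      map_add' := fun v w => by rw [map_add, Complex.add_re]
      map_smul' := fun c v => by
        have h1 : c • v = (c : ℂ) • v := (Complex.coe_smul c v).symm
        rw [h1, map_smulₛₗ, Complex.conj_ofReal, smul_eq_mul, Complex.re_ofReal_mul,
          RingHom.id_apply, smul_eq_mul] }
  have hT := trans_torus hQ
  have hlam : ∃ b ∈ latt (trans Γ), lam b ≠ 0 := by
    by_contra hcon
    push Not at hcon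
    apply hne
    have h1 : ∀ v, lam v = 0 := by
      intro v
      have hv : v ∈ Submodule.span ℝ (latt (trans Γ) : Set V) := by rw [hT.span_top]; trivial
      induction hv using Submodule.span_induction with
      | mem x hx => exact hcon x hx
      | zero => exact map_zero _
      | add x y _ _ hx hy => rw [map_add, hx, hy, add_zero]
      | smul c x _ hx => rw [map_smul, hx, smul_zero]
    ext v
    apply Complex.ext
    · exact h1 v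
    · have h2 := h1 (Complex.I • v)
      change (ℓ (Complex.I • v)).re = 0 at h2
      rw [map_smulₛₗ, Complex.conj_I, smul_eq_mul] at h2
      simpa using h2
  obtain ⟨b₀, hb₀, hb₀ne⟩ := hlam
  let t : ℝ := 2 * Real.pi * Real.sqrt 2 / lam b₀
  have hinv : ∀ γ ∈ base Γ, ∀ v, (t • lam) (γ.linear v) = (t • lam) v := by
    intro γ hγ v
    rw [LinearMap.smul_apply, LinearMap.smul_apply]
    congr 1
    change (ℓ (γ.linear v)).re = (ℓ v).re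
    rw [hℓ γ hγ v]
  let P : LineBundle (base Γ) := flat (t • lam) hinv
  have hP : IsFlat P := flat_isFlat _ _
  refine ⟨Sheaf.ofLB P, ⟨0, subset_closure hull_zero, isClass_ofLB
    ⟨_, chern_of_flat hP, fun _ _ => rfl⟩⟩, ?_⟩
  rintro ⟨m, hm, hs⟩
  obtain ⟨p, hp⟩ := hp
  obtain ⟨f, hf, hf0⟩ := hs 0 p hp
  let h : V → ℂ := fun v => p (f v)
  have hh : Differentiable ℂ h := hf.holo p.toLinearMap
  have hper : ∀ b (hb : b ∈ latt (trans Γ)) (v : V), h (b + v)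
      = P.e ⟨AffineEquiv.constVAdd ℂ V b, latt_trans_le hb⟩ v ^ m * h v := by
    intro b hb v
    have h1 := hf.eq ⟨(AffineEquiv.constVAdd ℂ V b, 1), mem_latt_trans.1 hb⟩ v
    change f (b + v) = (P.e ⟨AffineEquiv.constVAdd ℂ V b, latt_trans_le hb⟩ v ^ m) • f v at h1
    change p (f (b + v)) = _
    rw [h1, map_smul, smul_eq_mul]
  have : ProperSpace V := FiniteDimensional.proper ℂ V
  obtain ⟨C, hC⟩ := cobounded (latt (trans Γ)) hT.span_top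
  have hbd : Bornology.IsBounded (Set.range h) := by
    have hK : IsCompact (Metric.closedBall (0 : V) C) := isCompact_closedBall _ _
    obtain ⟨B, hB⟩ := (isBounded_iff_forall_norm_le.1 (hK.image hh.continuous).isBounded)
    rw [isBounded_iff_forall_norm_le]
    refine ⟨B, ?_⟩
    rintro _ ⟨v, rfl⟩
    obtain ⟨b, hb, hbC⟩ := hC v
    have h1 := congrArg norm (hper b hb v)
    rw [norm_mul, norm_pow, hP.2, one_pow, one_mul] at h1
    rw [← h1]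
    exact hB _ ⟨b + v, by rwa [mem_closedBall_zero_iff], rfl⟩
  have h2 : h (b₀ + 0) = h 0 := hh.apply_eq_apply_of_bounded hbd _ _
  rw [hper b₀ hb₀ 0] at h2
  have h3 : P.e ⟨AffineEquiv.constVAdd ℂ V b₀, latt_trans_le hb₀⟩ 0
      = Complex.exp ((2 * Real.pi * Real.sqrt 2 : ℝ) * Complex.I) := by
    change Complex.exp ((((t • lam) (b₀ + 0) : ℝ) : ℂ) * Complex.I) = _
    rw [add_zero, LinearMap.smul_apply, smul_eq_mul]
    congr 3
    simp only [t]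
    field_simp
  have h1 : Complex.exp ((2 * Real.pi * Real.sqrt 2 : ℝ) * Complex.I) ^ m = 1 := by
    rw [h3] at h2
    exact mul_right_cancel₀ (b := h 0) hf0 (h2.trans (one_mul _).symm)
  rw [← Complex.exp_nat_mul, Complex.exp_eq_one_iff] at h1
  obtain ⟨k, hk⟩ := h1
  have h4 : (m : ℂ) * (Real.sqrt 2 : ℂ) = k := by
    have h5 : (2 * Real.pi * Complex.I : ℂ) ≠ 0 := Complex.two_pi_I_ne_zero
    apply mul_right_cancel₀ h5
    rw [← hk]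
    push_cast
    ring
  have h6 : (m : ℝ) * Real.sqrt 2 = k := by exact_mod_cast h4
  have h7 : Irrational ((m : ℝ) * Real.sqrt 2) := by
    exact irrational_sqrt_two.natCast_mul (by omega)
  exact h7 ⟨k, by rw [h6]; push_cast; rfl⟩

/-- An integral semidefinite invariant form has a multiple, with a bounded factor, which is the Chern
form of a base point free line bundle. -/
theorem exists_bpf_unif {Γ₀ : Subgroup (V ≃ᵃ[ℂ] V)} {H : V → V → ℂ} (hΓ : IsTorusQuotient Γ₀)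
    (hH : IsHermitian H) (hn : IsNefForm H)
    (hinv : ∀ γ ∈ Γ₀, ∀ v w, H (γ.linear v) (γ.linear w) = H v w)
    (hint : ∀ b ∈ latt Γ₀, ∀ c ∈ latt Γ₀, ∃ n : ℤ, (H b c).im = n) :
    ∃ L : LineBundle Γ₀, IsChernForm L (fun v w =>
      ((4 * Nat.card (Lin Γ₀) ^ 3 : ℕ) : ℂ) * H v w) ∧ ∀ v, ∃ s, L.IsSection s ∧ s v ≠ 0 := by
  set N := Nat.card (Lin Γ₀) with hNdef
  set q : ℕ := 2 * N ^ 2 with hq
  have hqc : (q : ℂ) = ((q : ℝ) : ℂ) := by push_cast; rfl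
  have D : Pool.Agent.Y167.EvenForm Γ₀ N (fun v w => (q : ℂ) * H v w) := by
    refine ⟨⟨?_, ?_, ?_⟩, ?_, ?_, ?_⟩
    · intro u v w
      rw [hH.add_left, mul_add]
    · intro c v w
      rw [hH.smul_left]
      ring
    · intro v w
      rw [map_mul, ← hH.symm, Complex.conj_natCast]
    · intro v
      change 0 ≤ ((q : ℂ) * H v v).re
      rw [hqc, Complex.re_ofReal_mul]
      exact mul_nonneg (Nat.cast_nonneg _) (hn v)
    · intro γ hγ v w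
      rw [hinv γ hγ]
    · intro v hv w hw
      obtain ⟨n, hn⟩ := hint _ (Pool.Agent.Y167.mem_frac.1 hv) _ (Pool.Agent.Y167.mem_frac.1 hw)
      refine ⟨n, ?_⟩
      rw [hqc, Complex.im_ofReal_mul, ← hn, ← Complex.coe_smul, ← Complex.coe_smul, hH.smul_left,
        h_smul_right hH, Complex.conj_ofReal, Complex.im_ofReal_mul, Complex.im_ofReal_mul, hq]
      push_cast
      ring
  obtain ⟨L, hL, hs⟩ := D.bpf hΓ
  refine ⟨L, ?_, hs⟩
  have e1 : (fun v w => ((4 * N ^ 3 : ℕ) : ℂ) * H v w)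
      = fun v w => (2 * N : ℂ) * ((q : ℂ) * H v w) := by
    funext v w
    rw [hq]
    push_cast
    ring
  rw [e1]
  exact hL

variable [IsDomain R] [GradedAlgebra 𝒜]

/-- The bound for the multiple. -/
theorem exists_mix_unif (F : IsProj 𝒜 u) (hQ : IsQuotient 𝒜 u Γ)
    (Rl : Rel (base Γ) (LinearMap.id : V →ₗ[ℂ] V) H₀) {𝓛 : Sheaf 𝒜 Γ}
    {x : N1 𝒜 Γ (LinearMap.id : V →ₗ[ℂ] V)} (hx : x ∈ nefCone 𝒜 Γ (LinearMap.id : V →ₗ[ℂ] V) u)
    (hc : IsClass (LinearMap.id : V →ₗ[ℂ] V) 𝓛 (val x)) (m : ℕ) :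
    ∃ (L : LineBundle (base Γ)), (∀ v, ∃ s, L.IsSection s ∧ s v ≠ 0) ∧
      IsClass (LinearMap.id : V →ₗ[ℂ] V)
        (mixS F hQ L 𝓛.inv m (Nat.card (gal Γ) * m) (4 * Nat.card (Lin (base Γ)) ^ 3 * expo Γ))
        (((4 * Nat.card (Lin (base Γ)) ^ 3 * expo Γ * (Nat.card (gal Γ) * m) : ℕ) : ℝ) • val x) := by
  classical
  rw [closure_eqN F hQ Rl] at hx
  have hdeg : (val x).2 = rv 𝓛.deg := funext hc.2
  have hexp := expo_pos hQ
  obtain ⟨⟨H, hH, h1⟩, -⟩ := hc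
  have hH' := 𝓛.toLB_chern hQ hH
  obtain ⟨hHh, f, hfe⟩ := hH'
  have hnef : IsNefForm (fun v w => (expo Γ : ℂ) * H v w) := by
    intro v
    have e1 : 0 ≤ ((val x).1 v v).re := hx.1 v
    rw [h1] at e1
    have e2 : (expo Γ : ℂ) = ((expo Γ : ℝ) : ℂ) := by push_cast; rfl
    change 0 ≤ ((expo Γ : ℂ) * H v v).re
    rw [e2, Complex.re_ofReal_mul]
    exact mul_nonneg (Nat.cast_nonneg _) e1
  obtain ⟨L, hL, hs⟩ := exists_bpf_unif hQ.torus hHh hnef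
    (fun γ hγ v w => h_inv hHh hfe ⟨γ, hγ⟩ v w) (fun b hb c hc => im_int hHh hfe hb hc)
  refine ⟨L, hs, ?_⟩
  have ha : IsClass (LinearMap.id : V →ₗ[ℂ] V) (Sheaf.ofLB L : Sheaf 𝒜 Γ)
      ((((4 * Nat.card (Lin (base Γ)) ^ 3 * expo Γ : ℕ) : ℝ) • (val x).1, 0) : Pairs V ρ) := by
    refine isClass_ofLB ⟨_, hL, fun v w => ?_⟩
    change ((4 * Nat.card (Lin (base Γ)) ^ 3 * expo Γ : ℕ) : ℝ) • (val x).1 v w = _
    rw [h1, Complex.real_smul]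
    push_cast
    simp only [id_eq]
    ring
  obtain ⟨b, hb1, hb2⟩ := exists_degclass (j := (LinearMap.id : V →ₗ[ℂ] V)) F.base hQ 𝓛.inv m
  have h2 := isClass_tensor (isClass_pow ha (Nat.card (gal Γ) * m))
    (isClass_pow hb1 (4 * Nat.card (Lin (base Γ)) ^ 3 * expo Γ))
  have h3 : ((4 * Nat.card (Lin (base Γ)) ^ 3 * expo Γ * (Nat.card (gal Γ) * m) : ℕ) : ℝ) • val x
      = ((Nat.card (gal Γ) * m : ℕ) : ℝ) •
        ((((4 * Nat.card (Lin (base Γ)) ^ 3 * expo Γ : ℕ) : ℝ) • (val x).1, 0) : Pairs V ρ)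
        + ((4 * Nat.card (Lin (base Γ)) ^ 3 * expo Γ : ℕ) : ℝ) • val b := by
    rw [hb2]
    refine Prod.ext ?_ ?_
    · change ((4 * Nat.card (Lin (base Γ)) ^ 3 * expo Γ * (Nat.card (gal Γ) * m) : ℕ) : ℝ)
          • (val x).1
        = ((Nat.card (gal Γ) * m : ℕ) : ℝ) •
          ((4 * Nat.card (Lin (base Γ)) ^ 3 * expo Γ : ℕ) : ℝ) • (val x).1
          + ((4 * Nat.card (Lin (base Γ)) ^ 3 * expo Γ : ℕ) : ℝ) • (0 : V → V → ℂ)
      rw [smul_zero, add_zero, smul_smul]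
      push_cast
      congr 1
      ring
    · change ((4 * Nat.card (Lin (base Γ)) ^ 3 * expo Γ * (Nat.card (gal Γ) * m) : ℕ) : ℝ)
          • (val x).2
        = ((Nat.card (gal Γ) * m : ℕ) : ℝ) • (0 : Fin ρ → ℝ)
          + ((4 * Nat.card (Lin (base Γ)) ^ 3 * expo Γ : ℕ) : ℝ)
            • ((Nat.card (gal Γ) * m : ℕ) : ℝ) • rv 𝓛.deg
      rw [smul_zero, zero_add, smul_smul, hdeg]
      push_cast
      rfl
  rw [h3]
  exact h2

/-- If `H^1(X, O_X) = 0`, a sheaf is semiample if and only if it is nef and its degree is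
semiample. -/
theorem semi_iff (F : IsProj 𝒜 u) (hQ : IsQuotient 𝒜 u Γ)
    (Rl : Rel (base Γ) (LinearMap.id : V →ₗ[ℂ] V) H₀) (h01 : HOneZero (base Γ))
    (𝓛 : Sheaf 𝒜 Γ) (hc : ∃ x : N1 𝒜 Γ (LinearMap.id : V →ₗ[ℂ] V),
      IsClass (LinearMap.id : V →ₗ[ℂ] V) 𝓛 (val x)) :
    𝓛.IsSemiample u ↔ IsNef (LinearMap.id : V →ₗ[ℂ] V) u 𝓛 ∧ SemiampleF 𝒜 u 𝓛.deg := by
  constructor
  · intro h
    obtain ⟨x, hx⟩ := hc
    exact (num_iff F hQ Rl 𝓛).1 ⟨1, one_pos, x, x, hx, by simp, 𝓛, hx, h⟩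
  · rintro ⟨⟨x, hx, hc⟩, hd⟩
    obtain ⟨L, m, c, d, hpos, hs, h1, h2⟩ := exists_mix F hQ Rl hd hx hc
    have := finite_Lin hQ.torus
    exact ⟨_, Nat.mul_pos hpos (Nat.mul_pos (expo_pos hQ) Nat.card_pos),
      gen_of_num F hQ Rl h01 hc hs h1 h2⟩

/-- Nef sheaves on `X` are semiample if and only if `H^1(X, O_X) = 0` and the invariant nef classes
of `F` are semiample. -/
theorem semi_all (F : IsProj 𝒜 u) (hQ : IsQuotient 𝒜 u Γ)
    (Rl : Rel (base Γ) (LinearMap.id : V →ₗ[ℂ] V) H₀) :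
    (∀ 𝓛 : Sheaf 𝒜 Γ, IsNef (LinearMap.id : V →ₗ[ℂ] V) u 𝓛 → 𝓛.IsSemiample u) ↔
      HOneZero (base Γ) ∧
        ∀ β, X324.CF.Inv 𝒜 Γ β → rv β ∈ NefF 𝒜 u → SemiampleF 𝒜 u β := by
  refine ⟨fun h => ⟨?_, (num_all F hQ Rl).1 fun 𝓛 h𝓛 => ?_⟩, ?_⟩
  · by_contra hcon
    obtain ⟨𝓛, h1, h2⟩ := exists_not_semi hQ F.point hcon
    exact h2 (h 𝓛 h1)
  · obtain ⟨x, hx, hc⟩ := h𝓛
    exact ⟨1, one_pos, x, x, hc, by simp, 𝓛, hc, h 𝓛 ⟨x, hx, hc⟩⟩
  · rintro ⟨h01, hF⟩ 𝓛 h𝓛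
    exact (semi_iff F hQ Rl h01 𝓛 (by obtain ⟨x, -, hc⟩ := h𝓛; exact ⟨x, hc⟩)).2
      ⟨h𝓛, hF _ 𝓛.inv (nef_deg F hQ Rl h𝓛)⟩

omit [FiniteDimensional ℂ V] [IsDomain R] [GradedAlgebra 𝒜] in
theorem numLin_eq : Nat.card (Lin (base Γ)) = numLin Γ := by
  refine Nat.card_congr (Equiv.subtypeEquivRight fun g => ?_)
  constructor
  · rintro ⟨γ₀, ⟨γ, hγ, rfl⟩, rfl⟩
    exact ⟨γ, hγ, rfl⟩
  · rintro ⟨γ, hγ, rfl⟩
    exact ⟨γ.1, ⟨γ, hγ, rfl⟩, rfl⟩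

omit [FiniteDimensional ℂ V] [IsDomain R] [GradedAlgebra 𝒜] in
theorem numAut_eq : Nat.card (gal Γ) = numAut Γ := rfl

/-- The uniform version, with a bound. -/
theorem gen_unif (F : IsProj 𝒜 u) (hQ : IsQuotient 𝒜 u Γ)
    (Rl : Rel (base Γ) (LinearMap.id : V →ₗ[ℂ] V) H₀) (h01 : HOneZero (base Γ)) {m : ℕ}
    (hm : ∀ β, X324.CF.Inv 𝒜 Γ β → rv β ∈ NefF 𝒜 u → GenF 𝒜 u (m • β)) {𝓛 : Sheaf 𝒜 Γ}
    (hn : IsNef (LinearMap.id : V →ₗ[ℂ] V) u 𝓛) :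
    IsGen u 𝓛 (4 * numLin Γ ^ 6 * numAut Γ ^ 3 * m) := by
  rw [← numLin_eq, ← numAut_eq]
  have hd := nef_deg F hQ Rl hn
  obtain ⟨x, hx, hc⟩ := hn
  obtain ⟨L, hs, h2⟩ := exists_mix_unif F hQ Rl hx hc m
  have h3 := gen_of_num F hQ Rl h01 hc hs (hm _ 𝓛.inv hd) h2
  have e1 : 4 * Nat.card (Lin (base Γ)) ^ 3 * expo Γ * (Nat.card (gal Γ) * m)
      * (expo Γ * Nat.card (Lin (base Γ)))
      = 4 * Nat.card (Lin (base Γ)) ^ 6 * Nat.card (gal Γ) ^ 3 * m := by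
    rw [expo]
    ring
  rwa [e1] at h3

/-- Some power of all nef sheaves is generated by global sections if and only if `H^1(X, O_X) = 0` and
the same is true for the invariant nef classes of `F`. -/
theorem unif_all (F : IsProj 𝒜 u) (hQ : IsQuotient 𝒜 u Γ)
    (Rl : Rel (base Γ) (LinearMap.id : V →ₗ[ℂ] V) H₀) :
    (∃ k : ℕ, 0 < k ∧ ∀ 𝓛 : Sheaf 𝒜 Γ, IsNef (LinearMap.id : V →ₗ[ℂ] V) u 𝓛 → IsGen u 𝓛 k) ↔
      HOneZero (base Γ) ∧ ∃ m : ℕ, 0 < m ∧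
        ∀ β, X324.CF.Inv 𝒜 Γ β → rv β ∈ NefF 𝒜 u → GenF 𝒜 u (m • β) := by
  have := hQ.fin_gal
  have := finite_Lin hQ.torus
  have hcard : 0 < Nat.card (gal Γ) := Nat.card_pos
  have hN : 0 < Nat.card (Lin (base Γ)) := Nat.card_pos
  constructor
  · rintro ⟨k, hk, h⟩
    refine ⟨((semi_all F hQ Rl).1 fun 𝓛 h𝓛 => ⟨k, hk, h 𝓛 h𝓛⟩).1, k * Nat.card (gal Γ),
      Nat.mul_pos hk hcard, fun β hβ hn p hp => ?_⟩
    obtain ⟨f, hf, hf0⟩ := h _ (ofDeg_nef F hQ Rl hβ hn) 0 p hp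
    refine ⟨f 0, ?_, hf0⟩
    have h2 := hf.mem 0
    rwa [ofDeg_deg F hQ hβ, smul_smul] at h2
  · rintro ⟨h01, m, hm, h⟩
    rw [numAut_eq] at hcard
    rw [numLin_eq] at hN
    exact ⟨_, by positivity, fun 𝓛 h𝓛 => gen_unif F hQ Rl h01 h h𝓛⟩

end Pool.Agent.U201.NS
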