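import Pool.Agent.U201.NS.Cones

/-!
# Numerically semiample sheaves
-/

set_option autoImplicit false

namespace Pool.Agent.U201.NS

open Finset Filter Topology
open Pool.Agent.W594.SYZ2 Pool.Agent.W594.SYZ2.TQ Pool.Agent.TH735.AQ
open Pool.Agent.X324.CF
open Pool.Agent.U201.EC
open Pool.Agent.Y167 (Rel exists_eff)

variable {V E R : Type*} [NormedAddCommGroup V] [NormedSpace ℂ V]
  [NormedAddCommGroup E] [NormedSpace ℂ E] [CommRing R] [Algebra ℂ R] {ρ : ℕ}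
  {𝒜 : Cl ρ → Submodule ℂ R} {Γ : Grp V R} {j : E →ₗ[ℂ] V} {u : Cl ρ} {H₀ : V → V → ℂ}

variable [FiniteDimensional ℂ V] [IsDomain R] [GradedAlgebra 𝒜]

theorem isClass_pow {𝓛 : Sheaf 𝒜 Γ} {a : Pairs E ρ} (ha : IsClass j 𝓛 a) (c : ℕ) :
    IsClass j (𝓛.pow c) ((c : ℝ) • a) := by
  obtain ⟨⟨H, hH, h1⟩, h2⟩ := ha
  refine ⟨⟨_, Sheaf.chern_pow hH c, fun u w => ?_⟩, fun i => ?_⟩
  · change (c : ℝ) • a.1 u w = (c : ℂ) * H (j u) (j w)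
    rw [h1, Complex.real_smul]
    push_cast
    rfl
  · change (c : ℝ) * a.2 i = _
    rw [h2]
    simp [Sheaf.pow]

theorem isClass_tensor {𝓛 𝓜 : Sheaf 𝒜 Γ} {a b : Pairs E ρ} (ha : IsClass j 𝓛 a)
    (hb : IsClass j 𝓜 b) : IsClass j (𝓛.tensor 𝓜) (a + b) := by
  obtain ⟨⟨H, hH, h1⟩, h2⟩ := ha
  obtain ⟨⟨H', hH', h1'⟩, h2'⟩ := hb
  refine ⟨⟨_, Sheaf.chern_tensor hH hH', fun u w => ?_⟩, fun i => ?_⟩
  · change a.1 u w + b.1 u w = _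
    rw [h1, h1']
  · change a.2 i + b.2 i = _
    rw [h2, h2']
    simp [Sheaf.tensor]

/-- Combinations of pullbacks of line bundles from the quotient of `V` and of classes of `F`. -/
noncomputable def mixS (F : IsProj 𝒜 u) (hQ : IsQuotient 𝒜 u Γ) (L : LineBundle (base Γ)) {β : Cl ρ}
    (hβ : X324.CF.Inv 𝒜 Γ β) (m c d : ℕ) : Sheaf 𝒜 Γ :=
  ((Sheaf.ofLB L).pow c).tensor ((ofDeg F.base hQ (m • β) (hβ.nsmul m)).pow d)

section Mix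

variable {F : IsProj 𝒜 u} {hQ : IsQuotient 𝒜 u Γ} {L : LineBundle (base Γ)} {β : Cl ρ}
  {hβ : X324.CF.Inv 𝒜 Γ β} {m : ℕ}

omit [FiniteDimensional ℂ V] [IsDomain R] [GradedAlgebra 𝒜] in
theorem mixS_deg (c d : ℕ) :
    (mixS F hQ L hβ m c d).deg = (d * (Nat.card (gal Γ) * m)) • β := by
  change c • (0 : Cl ρ) + d • (Nat.card (gal Γ) • (m • β)) = _
  rw [smul_zero, zero_add, smul_smul, smul_smul, mul_assoc]

omit [FiniteDimensional ℂ V] [IsDomain R] [GradedAlgebra 𝒜] in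
theorem mixS_e (c d : ℕ) (γ : Γ) (v : V) :
    (mixS F hQ L hβ m c d).e γ v = L.e ⟨γ.1.1, mem_base γ.2⟩ v ^ c := by
  change L.e ⟨γ.1.1, mem_base γ.2⟩ v ^ c * 1 ^ d = _
  rw [one_pow, mul_one]

omit [FiniteDimensional ℂ V] [IsDomain R] in
/-- Such a sheaf has enough sections, if the line bundle is base point free and the class of `F` is
semiample. -/
theorem mix_sec (hs : ∀ v, ∃ s, L.IsSection s ∧ s v ≠ 0)
    (h1 : ∀ p : R →ₐ[ℂ] ℂ, Semistable 𝒜 u p → ∃ r ∈ 𝒜 (m • β), p r ≠ 0) (c d : ℕ) (v : V)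
    (p : R →ₐ[ℂ] ℂ) (hp : Semistable 𝒜 u p) :
    ∃ f, (mixS F hQ L hβ m c d).IsSection f ∧ p (f v) ≠ 0 := by
  classical
  have := hQ.fin_gal
  have : Fintype (gal Γ) := Fintype.ofFinite _
  obtain ⟨s, hs1, hs2⟩ := hs v
  obtain ⟨r, hr, hr0⟩ := exists_nonvanish (K := gal Γ) (𝒜 := 𝒜) (β := m • β) (p := p) fun φ =>
    h1 _ (semistable_comp hQ hp φ.2)
  have hN := ofDeg_section (D := F.base) (hQ := hQ) (hβ := hβ.nsmul m) hr
  refine ⟨fun v => (s v) ^ c • (nrm (gal Γ) r) ^ d, ⟨fun v => ?_, fun ℓ => ?_, fun γ v => ?_⟩, ?_⟩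
  · have h2 : (nrm (gal Γ) r) ^ d ∈ 𝒜 (d • (ofDeg F.base hQ (m • β) (hβ.nsmul m)).deg) :=
      SetLike.pow_mem_graded d (hN.mem v)
    have h3 : (mixS F hQ L hβ m c d).deg
        = d • (ofDeg F.base hQ (m • β) (hβ.nsmul m)).deg := by
      change c • (0 : Cl ρ) + _ = _
      rw [smul_zero, zero_add]
      rfl
    rw [h3]
    exact Submodule.smul_mem _ _ h2
  · have h2 : (fun v => ℓ ((s v) ^ c • (nrm (gal Γ) r) ^ d))
        = fun v => (s v) ^ c * ℓ ((nrm (gal Γ) r) ^ d) := by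
      funext v
      rw [map_smul, smul_eq_mul]
    rw [h2]
    exact (hs1.holo.pow c).mul_const _
  · rw [mixS_e]
    have h2 : s (γ.1.1 v) = L.e ⟨γ.1.1, mem_base γ.2⟩ v * s v := hs1.eq ⟨γ.1.1, mem_base γ.2⟩ v
    have h3 : γ.1.2 (nrm (gal Γ) r) = nrm (gal Γ) r := nrm_fix (mem_gal γ.2) _
    rw [h2, map_smul, map_pow, h3, smul_smul, mul_pow]
  · rw [map_smul, map_pow, smul_eq_mul]
    exact mul_ne_zero (pow_ne_zero _ hs2) (pow_ne_zero _ hr0)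

end Mix

variable [FiniteDimensional ℂ E]

/-- If the degree of a nef sheaf is semiample, a multiple of it is numerically equivalent to a
combination as above. -/
theorem exists_mix (F : IsProj 𝒜 u) (hQ : IsQuotient 𝒜 u Γ) (Rl : Rel (base Γ) j H₀)
    {𝓛 : Sheaf 𝒜 Γ} (h : SemiampleF 𝒜 u 𝓛.deg)
    {x : N1 𝒜 Γ j} (hx : x ∈ nefCone 𝒜 Γ j u) (hc : IsClass j 𝓛 (val x)) :
    ∃ (L : LineBundle (base Γ)) (m c d : ℕ), 0 < d * (Nat.card (gal Γ) * m) ∧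
      (∀ v, ∃ s, L.IsSection s ∧ s v ≠ 0) ∧
      (∀ p : R →ₐ[ℂ] ℂ, Semistable 𝒜 u p → ∃ r ∈ 𝒜 (m • 𝓛.deg), p r ≠ 0) ∧
      IsClass j (mixS F hQ L 𝓛.inv m c d)
        (((d * (Nat.card (gal Γ) * m) : ℕ) : ℝ) • val x) := by
  classical
  rw [closure_eqN F hQ Rl] at hx
  have hexp := expo_pos hQ
  have hexpr : (0 : ℝ) < expo Γ := by exact_mod_cast hexp
  have hdeg : (val x).2 = rv 𝓛.deg := funext hc.2
  obtain ⟨m, hm, h1⟩ := h
  obtain ⟨k, hk, L, hL, hs⟩ := exists_eff Rl (Int.p1 hQ ⟨𝓛, hc⟩)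
    (Pool.Agent.Y167.nef_smul hexpr.le hx.1)
  let a : N1 𝒜 Γ j := i1 ((k : ℝ) • ((expo Γ : ℝ) • X324.CF.p1 hQ x))
  have ha : IsClass j (Sheaf.ofLB L : Sheaf 𝒜 Γ) (val a) := isClass_ofLB hL
  obtain ⟨b, hb1, hb2⟩ := exists_degclass (j := j) F.base hQ 𝓛.inv m
  have hcard : 0 < Nat.card (gal Γ) := by
    have := hQ.fin_gal
    exact Nat.card_pos
  refine ⟨L, m, Nat.card (gal Γ) * m, k * expo Γ, by positivity, hs, h1, ?_⟩
  have h2 := isClass_tensor (isClass_pow ha (Nat.card (gal Γ) * m))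
    (isClass_pow hb1 (k * expo Γ))
  have h3 : (((k * expo Γ) * (Nat.card (gal Γ) * m) : ℕ) : ℝ) • val x
      = ((Nat.card (gal Γ) * m : ℕ) : ℝ) • val a + ((k * expo Γ : ℕ) : ℝ) • val b := by
    rw [hb2]
    have h4 : val a = ((((k * expo Γ : ℕ) : ℝ) • (val x).1, 0) : Pairs E ρ) := by
      change (((k : ℝ) • ((expo Γ : ℝ) • (val x).1), 0) : Pairs E ρ) = _
      rw [smul_smul]
      push_cast
      rfl
    rw [h4]
    refine Prod.ext ?_ ?_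
    · change (((k * expo Γ) * (Nat.card (gal Γ) * m) : ℕ) : ℝ) • (val x).1
        = ((Nat.card (gal Γ) * m : ℕ) : ℝ) • ((k * expo Γ : ℕ) : ℝ) • (val x).1
          + ((k * expo Γ : ℕ) : ℝ) • (0 : E → E → ℂ)
      rw [smul_zero, add_zero, smul_smul]
      push_cast
      congr 1
      ring
    · change (((k * expo Γ) * (Nat.card (gal Γ) * m) : ℕ) : ℝ) • (val x).2
        = ((Nat.card (gal Γ) * m : ℕ) : ℝ) • (0 : Fin ρ → ℝ)
          + ((k * expo Γ : ℕ) : ℝ) • ((Nat.card (gal Γ) * m : ℕ) : ℝ) • rv 𝓛.deg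
      rw [smul_zero, zero_add, smul_smul, hdeg]
      push_cast
      rfl
  rw [h3]
  exact h2

theorem nef_deg (F : IsProj 𝒜 u) (hQ : IsQuotient 𝒜 u Γ) (Rl : Rel (base Γ) j H₀)
    {𝓛 : Sheaf 𝒜 Γ} (hn : IsNef j u 𝓛) : rv 𝓛.deg ∈ NefF 𝒜 u := by
  obtain ⟨x, hx, hc⟩ := hn
  rw [closure_eqN F hQ Rl] at hx
  have hdeg : (val x).2 = rv 𝓛.deg := funext hc.2
  rw [← hdeg]
  exact hx.2

/-- A sheaf is numerically semiample if and only if it is nef and its degree is semiample. -/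
theorem num_iff (F : IsProj 𝒜 u) (hQ : IsQuotient 𝒜 u Γ) (Rl : Rel (base Γ) j H₀)
    (𝓛 : Sheaf 𝒜 Γ) : IsNumSemiample j u 𝓛 ↔ IsNef j u 𝓛 ∧ SemiampleF 𝒜 u 𝓛.deg := by
  constructor
  · rintro ⟨m, hm, x, y, hx, hy, 𝓜, hM, k, hk, h1⟩
    have hmr : (0 : ℝ) < m := by exact_mod_cast hm
    refine ⟨⟨x, ?_, hx⟩, ?_⟩
    · have h2 : y ∈ nefCone 𝒜 Γ j u := subset_closure (hull_mem ⟨𝓜, hM, k, hk, h1⟩)
      rw [closure_eqN F hQ Rl] at h2 ⊢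
      have h3 := KN_smul (inv_nonneg.2 hmr.le) h2
      rwa [hy, smul_smul, inv_mul_cancel₀ hmr.ne', one_smul] at h3
    · have hdeg : 𝓜.deg = m • 𝓛.deg := by
        apply rv_inj
        have h2 : (val y).2 = rv 𝓜.deg := funext hM.2
        have h3 : (val x).2 = rv 𝓛.deg := funext hx.2
        have h4 : (val y).2 = (m : ℝ) • (val x).2 := by
          rw [hy]
          rfl
        rw [← h2, h4, h3, rv_nsmul]
      refine ⟨k * m, Nat.mul_pos hk hm, fun p hp => ?_⟩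
      obtain ⟨f, hf, hf0⟩ := h1 0 p hp
      refine ⟨f 0, ?_, hf0⟩
      have h2 := hf.mem 0
      rwa [hdeg, smul_smul] at h2
  · rintro ⟨⟨x, hx, hc⟩, hd⟩
    obtain ⟨L, m, c, d, hpos, hs, h1, h2⟩ := exists_mix F hQ Rl hd hx hc
    refine ⟨_, hpos, x, _, hc, rfl, _, h2, 1, one_pos, fun v p hp => ?_⟩
    obtain ⟨f, hf, hf0⟩ := mix_sec (F := F) (hQ := hQ) (hβ := 𝓛.inv) hs h1 c d v p hp
    exact ⟨f, Sheaf.pow_one_section hf, hf0⟩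

/-- A sheaf with the degree a multiple of a given invariant nef class is nef. -/
theorem ofDeg_nef (F : IsProj 𝒜 u) (hQ : IsQuotient 𝒜 u Γ) (Rl : Rel (base Γ) j H₀) {β : Cl ρ}
    (hβ : X324.CF.Inv 𝒜 Γ β) (hn : rv β ∈ NefF 𝒜 u) :
    IsNef j u (ofDeg F.base hQ (1 • β) (hβ.nsmul 1)) := by
  obtain ⟨a, ha1, ha2⟩ := exists_degclass (j := j) F.base hQ hβ 1
  refine ⟨a, ?_, ha1⟩
  rw [closure_eqN F hQ Rl]
  refine ⟨fun e => ?_, ?_⟩
  · rw [ha2]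
    exact le_refl (0 : ℝ)
  · rw [ha2]
    exact nefF_smul (by positivity) hn

omit [FiniteDimensional ℂ E] [FiniteDimensional ℂ V] [IsDomain R] [GradedAlgebra 𝒜] in
theorem ofDeg_deg (F : IsProj 𝒜 u) (hQ : IsQuotient 𝒜 u Γ) {β : Cl ρ}
    (hβ : X324.CF.Inv 𝒜 Γ β) :
    (ofDeg F.base hQ (1 • β) (hβ.nsmul 1)).deg = Nat.card (gal Γ) • β := by
  change Nat.card (gal Γ) • (1 • β) = _
  rw [one_smul]

/-- All nef sheaves are numerically semiample if and only if all invariant nef classes of `F` are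
semiample. -/
theorem num_all (F : IsProj 𝒜 u) (hQ : IsQuotient 𝒜 u Γ) (Rl : Rel (base Γ) j H₀) :
    (∀ 𝓛 : Sheaf 𝒜 Γ, IsNef j u 𝓛 → IsNumSemiample j u 𝓛) ↔
      ∀ β, X324.CF.Inv 𝒜 Γ β → rv β ∈ NefF 𝒜 u → SemiampleF 𝒜 u β := by
  have := hQ.fin_gal
  have hcard : 0 < Nat.card (gal Γ) := Nat.card_pos
  refine ⟨fun h β hβ hn => ?_, fun h 𝓛 hn => (num_iff F hQ Rl 𝓛).2
    ⟨hn, h _ 𝓛.inv (nef_deg F hQ Rl hn)⟩⟩
  obtain ⟨-, m, hm, h1⟩ := (num_iff F hQ Rl _).1 (h _ (ofDeg_nef F hQ Rl hβ hn))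
  rw [ofDeg_deg F hQ hβ, smul_smul] at h1
  exact ⟨m * Nat.card (gal Γ), Nat.mul_pos hm hcard, h1⟩

end Pool.Agent.U201.NS
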