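import Pool.Agent.U201.NS.Num
import Pool.Agent.TH735.AQ.Nec

/-!
# Characters of the group and the condition `H^1(O) = 0`
-/

set_option autoImplicit false

namespace Pool.Agent.U201.NS

open Finset Filter Topology
open Pool.Agent.W594.SYZ2 Pool.Agent.W594.SYZ2.TQ Pool.Agent.TH735.AQ
open Pool.Agent.X324.CF
open Pool.Agent.U201.EC
open Pool.Agent.Y167 (Rel)

variable {V R : Type*} [NormedAddCommGroup V] [NormedSpace ℂ V]
  [CommRing R] [Algebra ℂ R] {ρ : ℕ}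
  {𝒜 : Cl ρ → Submodule ℂ R} {Γ : Grp V R} {u : Cl ρ} {H₀ : V → V → ℂ}

/-- The element of `Γ` given by a translation. -/
def tau (b : latt (trans Γ)) : Γ :=
  ⟨(AffineEquiv.constVAdd ℂ V b.1, (1 : R ≃ₐ[ℂ] R)), mem_latt_trans.1 b.2⟩

theorem tau_add (b c : latt (trans Γ)) : tau (b + c) = tau b * tau c := by
  apply Subtype.ext
  refine Prod.ext ?_ ?_
  · change AffineEquiv.constVAdd ℂ V (b.1 + c.1)
      = AffineEquiv.constVAdd ℂ V b.1 * AffineEquiv.constVAdd ℂ V c.1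
    ext v
    simp
  · change (1 : R ≃ₐ[ℂ] R) = 1 * 1
    rw [one_mul]

theorem tau_conj (γ : Γ) (b : latt (trans Γ)) :
    ∃ c : latt (trans Γ), c.1 = γ.1.1.linear b.1 ∧ tau c = γ * tau b * γ⁻¹ := by
  have h1 : (AffineEquiv.constVAdd ℂ V (γ.1.1.linear b.1), (1 : R ≃ₐ[ℂ] R))
      = (γ * tau b * γ⁻¹ : Γ).1 := by
    refine Prod.ext ?_ ?_
    · change AffineEquiv.constVAdd ℂ V (γ.1.1.linear b.1)
        = γ.1.1 * AffineEquiv.constVAdd ℂ V b.1 * γ.1.1⁻¹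
      apply AffineEquiv.ext
      intro v
      change γ.1.1.linear b.1 + v = γ.1.1 (b.1 + γ.1.1⁻¹ v)
      rw [add_comm b.1, act_add]
      have h2 : γ.1.1 (γ.1.1⁻¹ v) = v := γ.1.1.apply_symm_apply v
      rw [h2, add_comm]
    · change (1 : R ≃ₐ[ℂ] R) = γ.1.2 * 1 * γ.1.2⁻¹
      rw [mul_one, mul_inv_cancel]
  refine ⟨⟨γ.1.1.linear b.1, ?_⟩, rfl, Subtype.ext h1⟩
  rw [mem_latt_trans, h1]
  exact (γ * tau b * γ⁻¹ : Γ).2

theorem pow_tau (hQ : IsQuotient 𝒜 u Γ) (γ : Γ) :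
    ∃ b : latt (trans Γ), γ ^ expo Γ = tau b := by
  have := finite_Lin hQ.torus
  have h0 : (γ.1.1 ^ expo Γ).linear = 1 := by
    let g : Lin (base Γ) := ⟨γ.1.1.linear, γ.1.1, mem_base γ.2, rfl⟩
    have h2 : g ^ Nat.card (Lin (base Γ)) = 1 := pow_card_eq_one'
    have h4 := congrArg Subtype.val h2
    have h5 : (γ.1.1 ^ expo Γ).linear = γ.1.1.linear ^ expo Γ :=
      map_pow AffineEquiv.linearHom γ.1.1 _
    rw [h5, expo, pow_mul]
    have h6 : γ.1.1.linear ^ Nat.card (Lin (base Γ)) = 1 := h4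
    rw [h6, one_pow]
  have h1 : (γ ^ expo Γ : Γ).1 = (AffineEquiv.constVAdd ℂ V ((γ.1.1 ^ expo Γ) 0),
      (1 : R ≃ₐ[ℂ] R)) := by
    refine Prod.ext ?_ (gal_pow_expo hQ (mem_gal γ.2))
    change γ.1.1 ^ expo Γ = _
    apply AffineEquiv.ext
    intro v
    rw [act (γ.1.1 ^ expo Γ) v, h0]
    change v + _ = _ + v
    rw [add_comm]
  refine ⟨⟨(γ.1.1 ^ expo Γ) 0, ?_⟩, Subtype.ext h1⟩
  rw [mem_latt_trans, ← h1]
  exact (γ ^ expo Γ : Γ).2

variable [FiniteDimensional ℂ V]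

/-- If `H^1(X, O_X) = 0`, the sum of the translates of a vector is zero. -/
theorem sum_zero (Rl : Rel (base Γ) (LinearMap.id : V →ₗ[ℂ] V) H₀)
    (h01 : HOneZero (base Γ)) [Fintype (Lin (base Γ))] (b : V) :
    ∑ g : Lin (base Γ), g.1 b = 0 := by
  set v := ∑ g : Lin (base Γ), g.1 b with hv
  have hfix : ∀ γ ∈ base Γ, γ.linear v = v := by
    intro γ hγ
    rw [hv, map_sum]
    let g₀ : Lin (base Γ) := ⟨γ.linear, γ, hγ, rfl⟩
    exact Fintype.sum_equiv (Equiv.mulLeft g₀) _ _ fun g => rfl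
  let ℓ : V →ₛₗ[starRingEnd ℂ] ℂ :=
    { toFun := fun w => H₀ v w
      map_add' := fun w w' => h_add_right Rl.herm v w w'
      map_smul' := fun c w => h_smul_right Rl.herm c v w }
  have h1 : ℓ = 0 := by
    refine h01 ℓ fun γ hγ w => ?_
    change H₀ v (γ.linear w) = H₀ v w
    conv_lhs => rw [← hfix γ hγ]
    exact Rl.inv γ hγ v w
  by_contra hne
  have h2 := Rl.pos v hne
  have h3 : H₀ v v = 0 := LinearMap.congr_fun h1 v
  rw [h3] at h2
  simp at h2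

/-- If `H^1(X, O_X) = 0`, the characters of `Γ` have finite order. -/
theorem char_torsion (hQ : IsQuotient 𝒜 u Γ)
    (Rl : Rel (base Γ) (LinearMap.id : V →ₗ[ℂ] V) H₀)
    (h01 : HOneZero (base Γ)) (χ : Γ →* ℂ) (γ : Γ) :
    χ γ ^ (expo Γ * Nat.card (Lin (base Γ))) = 1 := by
  classical
  have := finite_Lin hQ.torus
  have : Fintype (Lin (base Γ)) := Fintype.ofFinite _
  have hinv : ∀ γ : Γ, χ γ * χ γ⁻¹ = 1 := fun γ => by rw [← map_mul, mul_inv_cancel, map_one]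
  let φ : Multiplicative (latt (trans Γ)) →* ℂ :=
    { toFun := fun b => χ (tau b.toAdd)
      map_one' := by
        have h1 : tau (0 : latt (trans Γ)) = 1 := by
          have h2 := tau_add (0 : latt (trans Γ)) 0
          rw [add_zero] at h2
          exact left_eq_mul.1 h2
        change χ (tau (0 : latt (trans Γ))) = 1
        rw [h1, map_one]
      map_mul' := fun b c => by
        change χ (tau (b.toAdd + c.toAdd)) = _
        rw [tau_add, map_mul] }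
  have key : ∀ b : latt (trans Γ), χ (tau b) ^ Fintype.card (Lin (base Γ)) = 1 := by
    intro b
    have h1 : ∀ g : Lin (base Γ), ∃ c : latt (trans Γ), c.1 = g.1 b.1 ∧ χ (tau c) = χ (tau b) := by
      rintro ⟨g, γ₀, ⟨γ, hγ, rfl⟩, rfl⟩
      obtain ⟨c, hc1, hc2⟩ := tau_conj ⟨γ, hγ⟩ b
      refine ⟨c, hc1, ?_⟩
      rw [hc2, map_mul, map_mul, mul_right_comm, hinv, one_mul]
    choose c hc1 hc2 using h1
    have h2 : ∑ g, c g = 0 := by
      apply Subtype.ext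
      rw [AddSubgroup.val_finsetSum]
      change ∑ g, (c g).1 = 0
      rw [Finset.sum_congr rfl fun g _ => hc1 g]
      exact sum_zero Rl h01 b.1
    have h3 : φ (∏ g : Lin (base Γ), Multiplicative.ofAdd (c g)) = 1 := by
      rw [← ofAdd_sum, h2, ofAdd_zero, map_one]
    rw [map_prod] at h3
    have h4 : ∀ g ∈ (Finset.univ : Finset (Lin (base Γ))),
        φ (Multiplicative.ofAdd (c g)) = χ (tau b) := fun g _ => hc2 g
    rw [Finset.prod_congr rfl h4, Finset.prod_const, Finset.card_univ] at h3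
    exact h3
  obtain ⟨b, hb⟩ := pow_tau hQ γ
  rw [Nat.card_eq_fintype_card, pow_mul, ← map_pow, hb, key]

variable [IsDomain R] [GradedAlgebra 𝒜]

/-- If `H^1(X, O_X) = 0` and a power of the sheaf is numerically equivalent to a combination of line
bundles from the quotient of `V` and of classes of `F` with enough sections, then a certain power is
generated by global sections. -/
theorem gen_of_num (F : IsProj 𝒜 u) (hQ : IsQuotient 𝒜 u Γ)
    (Rl : Rel (base Γ) (LinearMap.id : V →ₗ[ℂ] V) H₀) (h01 : HOneZero (base Γ))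
    {𝓛 : Sheaf 𝒜 Γ} {x : N1 𝒜 Γ (LinearMap.id : V →ₗ[ℂ] V)}
    (hc : IsClass (LinearMap.id : V →ₗ[ℂ] V) 𝓛 (val x)) {L : LineBundle (base Γ)} {m c d : ℕ}
    (hs : ∀ v, ∃ s, L.IsSection s ∧ s v ≠ 0)
    (h1 : ∀ p : R →ₐ[ℂ] ℂ, Semistable 𝒜 u p → ∃ r ∈ 𝒜 (m • 𝓛.deg), p r ≠ 0)
    (h2 : IsClass (LinearMap.id : V →ₗ[ℂ] V) (mixS F hQ L 𝓛.inv m c d)
        (((d * (Nat.card (gal Γ) * m) : ℕ) : ℝ) • val x)) :
    IsGen u 𝓛 (d * (Nat.card (gal Γ) * m) * (expo Γ * Nat.card (Lin (base Γ)))) := by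
  classical
  set M : ℕ := d * (Nat.card (gal Γ) * m) with hM
  set 𝓜 := mixS F hQ L 𝓛.inv m c d with hMd
  obtain ⟨⟨H, ⟨hH, f, hf, hfe⟩, hH1⟩, -⟩ := hc
  obtain ⟨⟨H', ⟨hH', f', hf', hfe'⟩, hH1'⟩, -⟩ := h2
  have hHH : ∀ v w, H' v w = (M : ℂ) * H v w := by
    intro v w
    have e1 : H' v w = (M : ℝ) • (val x).1 v w := (hH1' v w).symm
    rw [e1, hH1, Complex.real_smul]
    push_cast
    rfl
  let G : V → ℂ := fun v => (M : ℂ) * f v - f' v
  have hG : Differentiable ℂ G := (hf.const_mul _).sub hf'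
  let κ : Γ → V → ℂ := fun γ v => 𝓛.e γ v ^ M * (𝓜.e γ v)⁻¹ * Complex.exp (-(G (γ.1.1 v) - G v))
  have hact : ∀ γ : Γ, Differentiable ℂ fun v => γ.1.1 v := fun γ => affine_differentiable _
  have hκd : ∀ γ, Differentiable ℂ (κ γ) := fun γ =>
    (((𝓛.holo γ).pow M).mul ((𝓜.holo γ).inv (𝓜.ne_zero γ))).mul
      ((hG.comp (hact γ)).sub hG).neg.cexp
  have hκn : ∀ γ v, ‖κ γ v‖ = 1 := by
    intro γ v
    have e1 : ‖κ γ v‖ ^ 2 = 1 := by
      simp only [κ]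
      rw [norm_mul, norm_mul, norm_pow, norm_inv, mul_pow, mul_pow, inv_pow, hfe', ← pow_mul,
        mul_comm M 2, pow_mul, hfe, Complex.norm_exp, ← Real.exp_nat_mul, ← Real.exp_nat_mul,
        ← Real.exp_neg, ← Real.exp_add, ← Real.exp_add, Real.exp_eq_one_iff]
      have e2 : ∀ z : ℂ, ((M : ℂ) * z).re = (M : ℝ) * z.re := by
        intro z
        have e3 : (M : ℂ) = ((M : ℝ) : ℂ) := by push_cast; rfl
        rw [e3, Complex.re_ofReal_mul]
      simp only [G, hHH, Complex.neg_re, Complex.sub_re, e2]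
      push_cast
      ring
    exact (pow_eq_one_iff_of_nonneg (norm_nonneg _) two_ne_zero).1 e1
  have hκc : ∀ γ v, κ γ v = κ γ 0 := by
    intro γ v
    refine (hκd γ).apply_eq_apply_of_bounded ?_ v 0
    rw [isBounded_iff_forall_norm_le]
    refine ⟨1, ?_⟩
    rintro _ ⟨w, rfl⟩
    exact (hκn γ w).le
  have hκmul : ∀ γ δ v, κ (γ * δ) v = κ γ (δ.1.1 v) * κ δ v := by
    intro γ δ v
    simp only [κ]
    have e1 : (γ * δ : Γ).1.1 v = γ.1.1 (δ.1.1 v) := rfl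
    rw [𝓛.mul, 𝓜.mul, e1, mul_pow, mul_inv]
    have e2 : Complex.exp (-(G (γ.1.1 (δ.1.1 v)) - G v))
        = Complex.exp (-(G (γ.1.1 (δ.1.1 v)) - G (δ.1.1 v)))
          * Complex.exp (-(G (δ.1.1 v) - G v)) := by
      rw [← Complex.exp_add]
      congr 1
      ring
    rw [e2]
    ring
  have hone : κ 1 0 = 1 := by
    have e1 := hκmul 1 1 0
    rw [one_mul] at e1
    have e2 : (1 : Γ).1.1 (0 : V) = 0 := rfl
    rw [e2] at e1
    have e3 : κ 1 0 ≠ 0 := fun h => by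
      have := hκn 1 0
      rw [h, norm_zero] at this
      exact zero_ne_one this
    exact (mul_eq_left₀ e3).1 e1.symm
  let χ : Γ →* ℂ :=
    { toFun := fun γ => κ γ 0
      map_one' := hone
      map_mul' := fun γ δ => by
        rw [hκmul, hκc γ] }
  set N : ℕ := expo Γ * Nat.card (Lin (base Γ)) with hN
  have hχ : ∀ γ, χ γ ^ N = 1 := char_torsion hQ Rl h01 χ
  have hkey : ∀ γ v, 𝓛.e γ v ^ (M * N)
      = Complex.exp ((N : ℂ) * (G (γ.1.1 v) - G v)) * 𝓜.e γ v ^ N := by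
    intro γ v
    have e1 : κ γ v ^ N = 1 := by
      rw [hκc]
      exact hχ γ
    simp only [κ] at e1
    rw [mul_pow, mul_pow, ← pow_mul, inv_pow, ← Complex.exp_nat_mul] at e1
    have e2 : Complex.exp ((N : ℂ) * (G (γ.1.1 v) - G v))
        * Complex.exp ((N : ℂ) * -(G (γ.1.1 v) - G v)) = 1 := by
      rw [← Complex.exp_add]
      have : (N : ℂ) * (G (γ.1.1 v) - G v) + (N : ℂ) * -(G (γ.1.1 v) - G v) = 0 := by ring
      rw [this, Complex.exp_zero]
    have e3 : 𝓜.e γ v ^ N ≠ 0 := pow_ne_zero _ (𝓜.ne_zero γ v)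
    calc 𝓛.e γ v ^ (M * N)
        = 𝓛.e γ v ^ (M * N) * (𝓜.e γ v ^ N)⁻¹ * (𝓜.e γ v ^ N)
            * (Complex.exp ((N : ℂ) * (G (γ.1.1 v) - G v))
              * Complex.exp ((N : ℂ) * -(G (γ.1.1 v) - G v))) := by
          rw [e2, mul_one, inv_mul_cancel_right₀ e3]
      _ = (𝓛.e γ v ^ (M * N) * (𝓜.e γ v ^ N)⁻¹
            * Complex.exp ((N : ℂ) * -(G (γ.1.1 v) - G v)))
            * (Complex.exp ((N : ℂ) * (G (γ.1.1 v) - G v)) * 𝓜.e γ v ^ N) := by ring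
      _ = Complex.exp ((N : ℂ) * (G (γ.1.1 v) - G v)) * 𝓜.e γ v ^ N := by
          rw [e1, one_mul]
  intro v p hp
  obtain ⟨g, hg, hg0⟩ := mix_sec (F := F) (hQ := hQ) (hβ := 𝓛.inv) hs h1 (c * N) (d * N) v p hp
  refine ⟨fun v => Complex.exp ((N : ℂ) * G v) • g v, ⟨fun v => ?_, fun ℓ => ?_, fun γ v => ?_⟩, ?_⟩
  · have e1 := hg.mem v
    rw [mixS_deg] at e1
    have e2 : (d * N * (Nat.card (gal Γ) * m)) = M * N := by rw [hM]; ring
    rw [e2] at e1
    exact Submodule.smul_mem _ _ e1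
  · have e1 : (fun v => ℓ (Complex.exp ((N : ℂ) * G v) • g v))
        = fun v => Complex.exp ((N : ℂ) * G v) * ℓ (g v) := by
      funext v
      rw [map_smul, smul_eq_mul]
    rw [e1]
    exact (hG.const_mul _).cexp.mul (hg.holo ℓ)
  · change Complex.exp ((N : ℂ) * G (γ.1.1 v)) • g (γ.1.1 v)
      = 𝓛.e γ v ^ (M * N) • γ.1.2 (Complex.exp ((N : ℂ) * G v) • g v)
    have e1 : (mixS F hQ L 𝓛.inv m (c * N) (d * N)).e γ v = 𝓜.e γ v ^ N := by
      rw [mixS_e, hMd, mixS_e, pow_mul]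
    rw [hg.eq γ v, e1, hkey, map_smul, smul_smul, smul_smul]
    congr 1
    have e2 : Complex.exp ((N : ℂ) * G (γ.1.1 v))
        = Complex.exp ((N : ℂ) * (G (γ.1.1 v) - G v)) * Complex.exp ((N : ℂ) * G v) := by
      rw [← Complex.exp_add]
      congr 1
      ring
    rw [e2]
    ring
  · rw [map_smul, smul_eq_mul]
    exact mul_ne_zero (Complex.exp_ne_zero _) hg0

end Pool.Agent.U201.NS
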